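import Pool.Agent.PFE.StmtsE1

/-!
Squad PFE, row TXA (helper33): `Tx` is linear, and `Jx` is an ideal.
-/

open scoped BigOperators

noncomputable section

namespace Pool.Agent.PFE.H33

section

variable {R A X : Type} [CommRing R] [Ring A] [Algebra R A] [Group X]

lemma tx_add (y : A) (l : ℕ) (c : R) (a b : A) :
    Tx y l c (a + b) = Tx y l c a + Tx y l c b := by
  unfold Tx
  rw [← Finset.sum_add_distrib]
  refine Finset.sum_congr rfl fun j _ => ?_
  rw [mul_add, add_mul, smul_add]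

lemma tx_smul (y : A) (l : ℕ) (c r : R) (a : A) :
    Tx y l c (r • a) = r • Tx y l c a := by
  unfold Tx
  rw [Finset.smul_sum]
  refine Finset.sum_congr rfl fun j _ => ?_
  rw [mul_smul_comm, smul_mul_assoc, smul_comm]

lemma mem_jx (y : A) (l : ℕ) (χ : X →* R) (x : X) (b : A) :
    b ∈ Jx y l χ x ↔ ∃ a, ∃ n ∈ Nx y χ x, b = Tx y l (χ x) a + y * n := by
  constructor
  · intro hb
    unfold Jx at hb
    induction hb using Submodule.span_induction with
    | mem b hb =>
      rcases hb with ⟨a, rfl⟩ | ⟨n, hn, rfl⟩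
      · exact ⟨a, 0, Submodule.zero_mem _, by rw [mul_zero, add_zero]⟩
      · refine ⟨0, n, hn, ?_⟩
        have h0 := tx_smul y l (χ x) 0 (0 : A)
        rw [zero_smul, zero_smul] at h0
        rw [h0, zero_add]
    | zero =>
      refine ⟨0, 0, Submodule.zero_mem _, ?_⟩
      have h0 := tx_smul y l (χ x) 0 (0 : A)
      rw [zero_smul, zero_smul] at h0
      rw [h0, mul_zero, add_zero]
    | add b b' _ _ h h' =>
      obtain ⟨a, n, hn, rfl⟩ := h
      obtain ⟨a', n', hn', rfl⟩ := h'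
      refine ⟨a + a', n + n', Submodule.add_mem _ hn hn', ?_⟩
      rw [tx_add, mul_add]
      abel
    | smul r b _ h =>
      obtain ⟨a, n, hn, rfl⟩ := h
      refine ⟨r • a, r • n, Submodule.smul_mem _ _ hn, ?_⟩
      rw [tx_smul, mul_smul_comm, smul_add]
  · rintro ⟨a, n, hn, rfl⟩
    exact Submodule.add_mem _ (Submodule.subset_span (Or.inl ⟨a, rfl⟩))
      (Submodule.subset_span (Or.inr ⟨n, hn, rfl⟩))

lemma mul_nx {y : A} {χ : X →* R} {x x' : X} {a b : A} (ha : a ∈ Nx y χ x)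
    (hb : b ∈ Nx y χ x') : a * b ∈ Nx y χ (x * x') := by
  have ha' : y * a = χ x • (a * y) := ha
  have hb' : y * b = χ x' • (b * y) := hb
  show y * (a * b) = χ (x * x') • (a * b * y)
  rw [← mul_assoc, ha', smul_mul_assoc, mul_assoc a y b, hb', mul_smul_comm, smul_smul, ← map_mul,
    mul_assoc]

lemma nx_y {y : A} {χ : X →* R} {x : X} {n : A} (hn : n ∈ Nx y χ x) :
    n * y = χ x⁻¹ • (y * n) := by
  have h : y * n = χ x • (n * y) := hn
  rw [h, smul_smul, ← map_mul, inv_mul_cancel, map_one, one_smul]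

end

theorem txa (txr : TxrStmt) : TxaStmt := by
  intro R A X _ _ _ _ y l χ hl hy hχ
  obtain ⟨t1, t2, t3, -, t5, -, -⟩ := txr R A X y l χ hl hy hχ
  refine ⟨fun c a b => tx_add y l c a b, fun c r a => tx_smul y l c r a,
    fun x b => mem_jx y l χ x b, fun x b hb => ?_, fun x x' n b hn hb => ?_⟩
  · obtain ⟨a, n, hn, rfl⟩ := (mem_jx y l χ x b).1 hb
    exact Submodule.add_mem _ (t1 x a) (t5 x n hn).1
  · obtain ⟨a, n', hn', rfl⟩ := (mem_jx y l χ x' b).1 hb
    constructor
    · refine (mem_jx y l χ (x * x') _).2 ⟨n * a, χ x⁻¹ • (n * n'),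
        Submodule.smul_mem _ _ (mul_nx hn hn'), ?_⟩
      rw [mul_add, t2 x x' n a hn, ← mul_assoc n y n', nx_y hn, smul_mul_assoc, mul_smul_comm,
        mul_assoc]
    · refine (mem_jx y l χ (x' * x) _).2 ⟨a * n, n' * n, mul_nx hn' hn, ?_⟩
      rw [add_mul, t3 x x' n a hn, mul_assoc]

end Pool.Agent.PFE.H33
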